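import Pool.Agent.Q315.RD

/-!
# `k` consecutive integers, the `j`-th of which is `j` times an almost prime, with restricted digits in all short intervals

A prime `p` with `(p + 1) / 2` prime is a pair of consecutive integers `p`, `p + 1`, the first of which is `1` times a prime and the
second of which is `2` times a prime. Let `k ≥ 1` and let `L` be a common multiple of `1, 2, …, k`; we consider the `k` consecutive
integers `L n + j`, `1 ≤ j ≤ k`: the `j`-th is `j` times `(L / j) n + 1`. (For `k = 2` and `L = 2`: `p = 2 n + 1` and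
`(p + 1) / 2 = n + 1`. Such `k`-tuples with primes give gaps `k + 1` in the decompositions `∑ 1 / n_i = 1`.)

Let `g ≥ 2` be a base and `K` a large number of digits. For every `i < K` let `A i` be an arbitrary non-empty set of digits. Nothing
is assumed about these sets except that they are not too small on average: the number `|A 0| ⋯ |A (K - 1)|` of the integers
`t < g ^ K` whose `i`-th digit belongs to `A i` for all `i < K` is at least `exp (- c K) g ^ K`, where `c > 0` does not depend on the
base (`Rich`). Let `N ≤ g ^ (E K)` be arbitrary, so that the interval `[N, N + g ^ K)` may be very short, and let `L ≤ g ^ (E K)` be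
ANY common multiple of `1, …, k`.

The number of the `n = N + t` in this interval with these `t` for which all the `k` numbers `(L n + j) / j` have at most `r` prime
factors, all larger than `g ^ (K / r)`, is at least `κ V |A 0| ⋯ |A (K - 1)|`, unless there is an obvious obstruction (no digit `d` in
`A 0` such that the `k` numbers for `n = N + d` are prime to `g`); here `V` is the product of `1 - ν (p) / p` over the primes
`p ≤ g ^ K`, where `ν (p)` is the number of the residue classes modulo `p` for which `p` divides one of the `k` numbers, the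
expected order. The number of the `n = N + t` for which the `k` numbers `(L n + j) / j` are PRIMES is at most
`C V |A 0| ⋯ |A (K - 1)|`. The constants depend only on `k`, `E`, `r`, `g`: not on the sets `A i`, on `N` and on `L`.

Proof. The theorem on almost prime values of polynomials at integers with restricted digits, uniform in the polynomial, of the
starting library (`Pool.Agent.Y816.PD.uni_fun`).
-/

set_option autoImplicit false

namespace Pool.Agent.Results.MP_39a890_nt.ConsecutiveRestrictedDigits

open Filter Finset Polynomial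
open Pool.Agent.Q315.RD

/-- The cofactor of `j + 1` in the `(j + 1)`-st of the consecutive integers `L n + 1, …, L n + k`, where `n = N + t`. -/
def cofactor {k : ℕ} (L N : ℕ) (j : Fin k) (t : ℕ) : ℕ := (L * (N + t) + (j + 1)) / (j + 1)

lemma cofactor_mul {k L : ℕ} (hL : ∀ j : Fin k, (j + 1 : ℕ) ∣ L) (N : ℕ) (j : Fin k) (t : ℕ) :
    (j + 1) * cofactor L N j t = L * (N + t) + (j + 1) ∧ cofactor L N j t = L / (j + 1) * (N + t) + 1 := by
  obtain ⟨m, hm⟩ := hL j
  have h1 : L * (N + t) + (j + 1) = (j + 1) * (m * (N + t) + 1) := by rw [hm]; ring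
  have h2 : cofactor L N j t = m * (N + t) + 1 := by
    unfold cofactor
    rw [h1, Nat.mul_div_cancel_left _ (Nat.succ_pos _)]
  have h3 : L / (j + 1) = m := by rw [hm, Nat.mul_div_cancel_left _ (Nat.succ_pos _)]
  exact ⟨by rw [h2, h1], by rw [h2, h3]⟩

lemma poly {k L N : ℕ} (hL : ∀ j : Fin k, (j + 1 : ℕ) ∣ L) (j : Fin k) :
    ∃ P : Polynomial ℤ, P.natDegree ≤ 1 ∧ ∀ t : ℕ, P.eval (t : ℤ) = (cofactor L N j t : ℤ) := by
  refine ⟨C ((L / (j + 1) : ℕ) : ℤ) * (X + C (N : ℤ)) + 1, by compute_degree, fun t => ?_⟩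
  rw [(cofactor_mul hL N j t).2]
  simp only [eval_add, eval_mul, eval_C, eval_X, eval_one]
  push_cast
  ring

/-- **`k` consecutive integers `L n + j`, `j ≤ k`, the `j`-th being `j` times an almost prime, with restricted digits.** -/
theorem result (k E : ℕ) (hk : 1 ≤ k) :
    ∃ c : ℝ, 0 < c ∧ ∃ r₀ : ℕ, 2 ≤ r₀ ∧ ∀ r : ℕ, r₀ ≤ r → ∀ g : ℕ, 2 ≤ g → ∃ κ C : ℝ, 0 < κ ∧ 0 < C ∧
      ∀ᶠ K : ℕ in atTop, ∀ N L : ℕ, N ≤ g ^ (E * K) → 1 ≤ L → L ≤ g ^ (E * K) →
        (∀ j : Fin k, (j + 1 : ℕ) ∣ L) → ∀ A : ℕ → Finset ℕ, Rich c g K A →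
        ((∃ d ∈ A 0, ∀ j : Fin k, (cofactor L N j d).Coprime g) →
          κ * density (cofactor (k := k) L N) (g ^ K) * choices K A ≤
            count g K A fun t => ∀ j : Fin k, L * (N + t) + (j + 1) = (j + 1) * cofactor L N j t ∧
              AlmostPrime (g ^ K) r (cofactor L N j t)) ∧
        (count g K A (fun t => ∀ j : Fin k, (cofactor L N j t).Prime) : ℝ) ≤
          C * density (cofactor (k := k) L N) (g ^ K) * choices K A := by
  obtain ⟨c, hc, r₀, hr₀, h⟩ := forms k ((2 * E + 3) * k) hk
  refine ⟨c, hc, r₀, hr₀, fun r hr g hg => ?_⟩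
  obtain ⟨κ, C, hκ, hC, h1⟩ := h r hr g hg
  refine ⟨κ, C, hκ, hC, ?_⟩
  filter_upwards [h1, eventually_ge_atTop 1] with K hK hK1
  intro N L hN hL1 hL hLd A hA
  have hg1 : 1 ≤ g := by omega
  have h2g : 2 ≤ g ^ K := hg.trans (Nat.le_self_pow (by omega) g)
  choose P hP1 hP2 using fun j : Fin k => poly (N := N) hLd j
  have h2 := hK k (cofactor L N)
    ⟨∏ i, P i, (natDegree_prod_le _ _).trans ((sum_le_sum fun i _ => hP1 i).trans (by simp)), fun t => by
      rw [eval_prod]
      exact prod_congr rfl fun i _ => hP2 i t⟩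
    (fun p hp => by
      refine ⟨(p - 1) * N, fun j hj => ?_⟩
      rw [(cofactor_mul hLd N j _).2] at hj
      have e0 : N + (p - 1) * N = p * N := by
        obtain ⟨m, rfl⟩ : ∃ m, p = m + 1 := ⟨p - 1, by have := hp.two_le; omega⟩
        simp only [Nat.add_sub_cancel]
        ring
      rw [e0] at hj
      have h3 : p ∣ L / (j + 1) * (p * N) := (Dvd.intro N rfl : p ∣ p * N).mul_left _
      have h4 := (Nat.dvd_add_right h3).1 hj
      have := Nat.le_of_dvd one_pos h4
      have := hp.two_le
      omega)
    (fun t _ j => by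
      rw [(cofactor_mul hLd N j _).2]
      have h3 : 1 ≤ L / (j + 1) := Nat.div_pos (Nat.le_of_dvd hL1 (hLd j)) (Nat.succ_pos _)
      calc t ≤ 1 * (N + t) + 1 := by omega
        _ ≤ _ := Nat.add_le_add_right (Nat.mul_le_mul_right _ h3) 1)
    (fun t ht => by
      have hone : ∀ j : Fin k, cofactor L N j t ≤ g ^ ((2 * E + 3) * K) := by
        intro j
        rw [(cofactor_mul hLd N j _).2]
        have hn : N + t ≤ g ^ ((E + 2) * K) := by
          calc N + t ≤ g ^ (E * K) + g ^ K := by omega
            _ ≤ g ^ ((E + 1) * K) + g ^ ((E + 1) * K) := by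
                apply Nat.add_le_add <;> exact Nat.pow_le_pow_right hg1 (by nlinarith)
            _ = 2 * g ^ ((E + 1) * K) := by ring
            _ ≤ g ^ K * g ^ ((E + 1) * K) := Nat.mul_le_mul_right _ h2g
            _ = g ^ ((E + 2) * K) := by rw [← pow_add]; congr 1; ring
        calc L / (j + 1) * (N + t) + 1 ≤ g ^ (E * K) * g ^ ((E + 2) * K) + 1 :=
              Nat.add_le_add_right (Nat.mul_le_mul ((Nat.div_le_self _ _).trans hL) hn) 1
          _ = g ^ ((2 * E + 2) * K) + 1 := by rw [← pow_add]; congr 2; ring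
          _ ≤ 2 * g ^ ((2 * E + 2) * K) := by
              have : 1 ≤ g ^ ((2 * E + 2) * K) := Nat.one_le_pow _ _ hg1
              omega
          _ ≤ g ^ K * g ^ ((2 * E + 2) * K) := Nat.mul_le_mul_right _ h2g
          _ = g ^ ((2 * E + 3) * K) := by rw [← pow_add]; congr 1; ring
      calc ∏ j, cofactor L N j t ≤ ∏ _j : Fin k, g ^ ((2 * E + 3) * K) := prod_le_prod' fun j _ => hone j
        _ = (g ^ ((2 * E + 3) * K)) ^ k := by simp
        _ = g ^ ((2 * E + 3) * k * K) := by rw [← pow_mul]; congr 1; ring) A hA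
  refine ⟨fun hd => (h2.1 hd).trans (le_of_eq ?_), h2.2⟩
  congr 2
  funext t
  exact propext ⟨fun h j => ⟨(cofactor_mul hLd N j t).1.symm, h j⟩, fun h j => (h j).2⟩

end Pool.Agent.Results.MP_39a890_nt.ConsecutiveRestrictedDigits
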