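import Pool.Agent.TH935.LF12
import Pool.Agent.Q56.TF.Typ
import Pool.Agent.Q319.DR.Fam
import Pool.Agent.Q56.DR.Seq

/-!
# Primes `q` with `(q + h) / a` or `(q - h) / a` prime in all intervals, for all shifts `h` in windows at multiples and
dilates of almost all real numbers

* For `0 < θ < 1` there is `κ₀ > 0` such that for all real `y ∈ [N ^ (1 - θ), 2 N ^ (1 - θ)]` outside a set of measure
  at most `N ^ (1 - θ - κ₀)` ALL shifts `h > 0` in the windows of radius `log ^ A N` around the multiples `k y`,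
  `k ≤ N ^ θ`, with at most `N ^ θ / log ^ U N` exceptional `k`, are good at scale `N`.
* For an arbitrary sequence `v` of natural numbers with `v k ≥ k ^ c` and for almost every real `α > 0` ALL shifts `h > 0`
  in the windows of radius `log ^ A (v k)` around the numbers `α v k` are good at scale `v k`, for all `k ≤ K` with at
  most `K / log ^ U K` exceptions (for all large `K`).
* If `v k ≥ exp (k ^ δ)` this holds for ALL large `k`.

From Mathlib: `n.primeFactors`: the set of the prime divisors of `n`; `volume`: the Lebesgue measure; `∀ᵐ α : ℝ`: for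
almost all real `α`; `∀ᶠ k in atTop`: for all large `k`. The theorem about almost all constants of linear equations in
primes is from the starting files (`Pool.Agent.TH935.LF.fam_lin`), as well as the count of the elements of arbitrary sets
of integers in intervals at multiples of real numbers (`Pool.Agent.H438R2.DL`).
-/

set_option autoImplicit false

namespace Pool.Agent.Results.MP_39a890_nt.ShiftsAtRealMultiples

open Finset MeasureTheory Filter

/-- The twin prime constant `C₂ = ∏_{p > 2} (1 - 1 / (p - 1) ^ 2)`: the infimum of the decreasing partial products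
over the primes `3 ≤ p ≤ z`. -/
noncomputable def C₂ : ℝ := ⨅ z : ℕ, ∏ p ∈ (Icc 3 z).filter Nat.Prime, (1 - 1 / ((p : ℝ) - 1) ^ 2)

/-- The singular series `2 C₂ ∏_{p ∣ n, p > 2} (p - 1) / (p - 2)`. -/
noncomputable def sing (n : ℕ) : ℝ :=
  2 * C₂ * ∏ p ∈ n.primeFactors.filter (fun p => 2 < p), ((p : ℝ) - 1) / ((p : ℝ) - 2)

open Classical in
/-- The number of the primes `q` with `y₁ < q ≤ y₂` such that `(q + c) / a` is a prime. -/
noncomputable def pairs (a : ℕ) (c : ℤ) (y₁ y₂ : ℕ) : ℕ :=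
  ((Ioc y₁ y₂).filter (fun q : ℕ => q.Prime ∧ ∃ p : ℕ, p.Prime ∧ (a : ℤ) * p = q + c)).card

/-- The prediction of Hardy and Littlewood `𝔖(a h) (y₂ - y₁) / (a log ^ 2 N)`. -/
noncomputable def expected (N a h y₁ y₂ : ℕ) : ℝ := sing (a * h) * ((y₂ : ℝ) - y₁) / (a * Real.log N ^ 2)

/-- The shift `h > 0` is good at the scale `N`: for `c = h` and `c = - h` and all `a ≤ log ^ D N` prime to `h` such
that `a h` is even, in every interval `(y₁, y₂]` with `y₂ ≤ B N`, of length at least `N / log ^ V N`, on which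
`q + c > 0`, the number of the primes `q` such that `(q + c) / a` is a prime is `𝔖(a h) (y₂ - y₁) / (a log ^ 2 N)` up
to a relative error of at most `ε`. -/
def Good (ε : ℝ) (B V D N h : ℕ) : Prop :=
  ∀ c : ℤ, (c = h ∨ c = -h) → ∀ a : ℕ, 1 ≤ a → (a : ℝ) ≤ Real.log N ^ D → a.Coprime h → Even (a * h) →
    ∀ y₁ y₂ : ℕ, y₁ < y₂ → y₂ ≤ B * N → (N : ℝ) / Real.log N ^ V ≤ (y₂ : ℝ) - y₁ → 0 < c + ((y₁ : ℤ) + 1) →
      |(pairs a c y₁ y₂ : ℝ) - expected N a h y₁ y₂| ≤ ε * expected N a h y₁ y₂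

/-- All integers `h > 0` at a distance of at most `w` from the real number `x` are good at the scale `N`. -/
def AllGood (ε : ℝ) (B V D N : ℕ) (w x : ℝ) : Prop := ∀ h : ℕ, 0 < h → |(h : ℝ) - x| ≤ w → Good ε B V D N h

open Classical in
/-- The number of the `k` in `{1, ..., K}` which do not have the property `P`. -/
noncomputable def exceptions (K : ℕ) (P : ℕ → Prop) : ℕ := ((Icc 1 K).filter (fun k => ¬ P k)).card

lemma pairs_eq (a : ℕ) (c : ℤ) (y₁ y₂ : ℕ) : pairs a c y₁ y₂ = Pool.Agent.TH935.LF.cn a 1 c y₁ y₂ := by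
  classical
  unfold pairs Pool.Agent.TH935.LF.cn
  congr 1
  apply filter_congr
  intro q _
  constructor
  · rintro ⟨h1, p, h2, h3⟩
    exact ⟨h1, p, h2, by linarith⟩
  · rintro ⟨h1, p, h2, h3⟩
    exact ⟨h1, p, h2, by linarith⟩

/-- a bad shift violates the property of the library with one of the two signs -/
lemma good_of {ε : ℝ} {B B' V D N h : ℕ} (hB : B ≤ B') (hN : 3 ≤ N)
    (h1 : Pool.Agent.TH935.LF.HW ε V B' D N h) (h2 : Pool.Agent.TH935.LF.HW ε V B' D N (-h)) : Good ε B V D N h := by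
  intro c hc a ha haL hah h2a y₁ y₂ h12 hy2 hΔ hpos
  have hL1 : (1 : ℝ) ≤ Real.log N := by
    have h3 : Real.exp 1 ≤ N := by
      have := Real.exp_one_lt_d9
      have h4 : (3 : ℝ) ≤ N := by exact_mod_cast hN
      linarith
    calc (1 : ℝ) = Real.log (Real.exp 1) := (Real.log_exp 1).symm
      _ ≤ _ := Real.log_le_log (Real.exp_pos 1) h3
  have key : ∀ c : ℤ, (c = h ∨ c = -h) → Pool.Agent.TH935.LF.HW ε V B' D N c → 0 < c + ((y₁ : ℤ) + 1) →
      |(pairs a c y₁ y₂ : ℝ) - expected N a h y₁ y₂| ≤ ε * expected N a h y₁ y₂ := by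
    intro c hc hw hpos
    have hcop : IsCoprime (a : ℤ) c := by
      have h5 : IsCoprime (a : ℤ) (h : ℤ) := Nat.isCoprime_iff_coprime.2 hah
      rcases hc with rfl | rfl
      · exact h5
      · exact h5.neg_right
    have hdvd : (2 : ℤ) ∣ (a : ℤ) * 1 * c := by
      have h5 : (2 : ℤ) ∣ (a : ℤ) * h := by exact_mod_cast h2a.two_dvd
      rcases hc with rfl | rfl
      · rw [mul_one]; exact h5
      · rw [mul_one, mul_neg]; exact (dvd_neg (α := ℤ)).2 h5
    have h3 := hw a 1 ha haL one_ne_zero (by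
      simp only [Int.natAbs_one, Nat.cast_one]
      exact one_le_pow₀ hL1) isCoprime_one_right hcop isCoprime_one_left hdvd
      y₁ y₂ h12 (hy2.trans (Nat.mul_le_mul_right _ hB)) hΔ (by
        intro q hq
        have hq1 : (y₁ : ℤ) + 1 ≤ q := by exact_mod_cast (mem_Ioc.1 hq).1
        linarith)
    rw [← pairs_eq] at h3
    have h4 : ((a : ℤ) * 1 * c).natAbs = a * h := by
      rcases hc with rfl | rfl
      · rw [mul_one]
        exact Int.natAbs_natCast (a * h)
      · rw [mul_one, mul_neg, Int.natAbs_neg]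
        exact Int.natAbs_natCast (a * h)
    rw [h4] at h3
    exact h3
  rcases hc with rfl | rfl
  · exact key _ (Or.inl rfl) h1 hpos
  · exact key _ (Or.inr rfl) h2 hpos

lemma good_mono {ε ε' : ℝ} (h : ε' ≤ ε) {B V D N n : ℕ} (hh : Good ε' B V D N n) : Good ε B V D N n := by
  intro c hc a ha haL hah h2a y₁ y₂ h12 hy2 hΔ hpos
  refine (hh c hc a ha haL hah h2a y₁ y₂ h12 hy2 hΔ hpos).trans ?_
  apply mul_le_mul_of_nonneg_right h
  unfold expected
  have h6 : 0 ≤ sing (a * n) := by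
    have h7 : sing (a * n) = Pool.Agent.H560R3.GB.sing (a * n) := rfl
    rw [h7]
    exact zero_le_one.trans (Pool.Agent.W93.GB.one_le_sing _)
  have h8 : (0 : ℝ) ≤ (y₂ : ℝ) - y₁ := by
    have : (y₁ : ℝ) ≤ y₂ := by exact_mod_cast h12.le
    linarith
  positivity

/-- families of constants -/
lemma general (p B C V D U : ℕ) (ε : ℝ) (hε : 0 < ε) (hε1 : ε ≤ 1 / 2) :
    ∃ N₀ : ℕ, ∀ N : ℕ, N₀ ≤ N → ∀ (ι : Type) [Fintype ι] (v : ι → ℤ), (∀ i, |v i| ≤ B * N) →
      (Pool.Agent.TH935.GF.En p v : ℝ) * N ≤ Real.log N ^ C * (Fintype.card ι : ℝ) ^ (2 * p) →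
      ∀ S : Finset ι, (∀ i ∈ S, v i ≠ 0 ∧ ¬ Pool.Agent.TH935.LF.HW ε V B D N (v i)) →
      (S.card : ℝ) ≤ Fintype.card ι / Real.log N ^ U :=
  Pool.Agent.TH935.LF.transferZ p B C U (fun N c => Pool.Agent.TH935.LF.HW ε V B D N c)
    (fun C U => Pool.Agent.TH935.LF.fam_lin p V B C D U ε hε hε1)

lemma sparse (ε : ℝ) (hε : 0 < ε) (B V D : ℕ) :
    Pool.Agent.Q319.DR.Sparse (fun N h => 0 < h ∧ ¬ Good ε B V D N h) := by
  classical
  intro B' U
  obtain ⟨N₀, h0⟩ := general 1 (B + B') 0 V D (U + 1)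
    (min ε (1 / 2)) (lt_min hε (by norm_num)) (min_le_right _ _)
  obtain ⟨N₁, h1⟩ := eventually_atTop.1 ((Real.tendsto_log_atTop.comp
    tendsto_natCast_atTop_atTop).eventually_ge_atTop (2 * (B' : ℝ) + 1))
  refine ⟨N₀ + N₁ + 3, fun N hN S hS hSb => ?_⟩
  have hlog := h1 N (by omega)
  obtain ⟨M, hM⟩ : ∃ M : ℕ, M = B' * N := ⟨_, rfl⟩
  rw [← hM] at hS
  have hMN : (M : ℝ) = B' * N := by rw [hM]; push_cast; ring
  have hN0 : (0 : ℝ) < N := by exact_mod_cast (by omega : 0 < N)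
  have hfam : ∀ v : Fin M → ℤ, Function.Injective v → (∀ i, |v i| ≤ M) →
      ((univ.filter (fun i : Fin M => v i ≠ 0 ∧
        ¬ Pool.Agent.TH935.LF.HW (min ε (1 / 2)) V (B + B') D N (v i))).card : ℝ) ≤ M / Real.log N ^ (U + 1) := by
    intro v hinj hv
    have h2 := h0 N (by omega) (Fin M) v (fun i => (hv i).trans (by
      rw [hM]; push_cast
      have : (0 : ℤ) ≤ (B : ℤ) * N := by positivity
      nlinarith)) (by
      have h3 : Pool.Agent.TH935.GF.En 1 v = M := by
        have h4 := Pool.Agent.Q319.DR.energy_inj v hinj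
        rw [Fintype.card_fin] at h4
        exact h4
      rw [h3, Fintype.card_fin, pow_zero, one_mul]
      rcases Nat.eq_zero_or_pos B' with h5 | h5
      · rw [h5, zero_mul] at hM
        rw [hM]; simp
      · have h6 : (N : ℝ) ≤ M := by
          rw [hMN]
          have : (1 : ℝ) ≤ B' := by exact_mod_cast h5
          nlinarith
        have h7 : (0 : ℝ) ≤ M := Nat.cast_nonneg _
        rw [show 2 * 1 = 2 from rfl]
        nlinarith) (univ.filter (fun i : Fin M => v i ≠ 0 ∧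
        ¬ Pool.Agent.TH935.LF.HW (min ε (1 / 2)) V (B + B') D N (v i))) (fun i hi => (mem_filter.1 hi).2)
    rw [Fintype.card_fin] at h2
    exact h2
  have hp := hfam (Pool.Agent.Q319.DR.idf M) (Pool.Agent.Q319.DR.idf_inj M) (Pool.Agent.Q319.DR.idf_abs M)
  have hm := hfam (fun i => -Pool.Agent.Q319.DR.idf M i)
    (fun i j hij => Pool.Agent.Q319.DR.idf_inj M (neg_injective hij))
    (fun i => by rw [abs_neg]; exact Pool.Agent.Q319.DR.idf_abs M i)
  set Sp := S.filter (fun n : ℕ => ¬ Pool.Agent.TH935.LF.HW (min ε (1 / 2)) V (B + B') D N n) with hSp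
  set Sm := S.filter (fun n : ℕ => ¬ Pool.Agent.TH935.LF.HW (min ε (1 / 2)) V (B + B') D N (-n)) with hSm
  have hsub : S ⊆ Sp ∪ Sm := by
    intro n hn
    rw [mem_union, hSp, hSm, mem_filter, mem_filter]
    by_contra hcon
    push Not at hcon
    exact (hSb n hn).2 (good_mono (min_le_left _ _) (good_of (by omega) (by omega) (hcon.1 hn) (hcon.2 hn)))
  have e1 : (Sp.card : ℝ) ≤ M / Real.log N ^ (U + 1) := by
    refine le_trans ?_ hp
    apply Nat.cast_le.2
    refine Pool.Agent.Q319.DR.set_of_fam M (fun a => a ≠ 0 ∧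
        ¬ Pool.Agent.TH935.LF.HW (min ε (1 / 2)) V (B + B') D N a) Sp ((filter_subset _ _).trans hS) ?_
    intro q hq
    rw [hSp, mem_filter] at hq
    have := (hSb q hq.1).1
    exact ⟨by exact_mod_cast (by omega : q ≠ 0), hq.2⟩
  have e2 : (Sm.card : ℝ) ≤ M / Real.log N ^ (U + 1) := by
    refine le_trans ?_ hm
    apply Nat.cast_le.2
    refine Pool.Agent.Q319.DR.set_of_fam M (fun a => -a ≠ 0 ∧
        ¬ Pool.Agent.TH935.LF.HW (min ε (1 / 2)) V (B + B') D N (-a)) Sm ((filter_subset _ _).trans hS) ?_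
    intro q hq
    rw [hSm, mem_filter] at hq
    have := (hSb q hq.1).1
    refine ⟨?_, hq.2⟩
    rw [neg_ne_zero]
    exact_mod_cast (by omega : q ≠ 0)
  have e3 : (S.card : ℝ) ≤ 2 * (M / Real.log N ^ (U + 1)) := by
    have h3 := (card_le_card hsub).trans (card_union_le _ _)
    have h4 : (S.card : ℝ) ≤ Sp.card + Sm.card := by exact_mod_cast h3
    linarith
  refine e3.trans ?_
  have hL : (2 * B' + 1 : ℝ) ≤ Real.log N := hlog
  have hB'0 : (0 : ℝ) ≤ B' := Nat.cast_nonneg _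
  have hL0 : 0 < Real.log N := by linarith
  rw [pow_succ, hMN, ← mul_div_assoc, div_le_div_iff₀ (by positivity) (by positivity)]
  have h5 : (0 : ℝ) ≤ N * Real.log N ^ U := by positivity
  calc 2 * (B' * N) * Real.log N ^ U = (2 * B') * (N * Real.log N ^ U) := by ring
    _ ≤ Real.log N * (N * Real.log N ^ U) := mul_le_mul_of_nonneg_right (by linarith) h5
    _ = _ := by ring

/-- Let a shift `h > 0` be called good at the scale `N` (with the parameters `ε`, `B`, `V`, `D`) if for both signs and all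
`a ≤ log ^ D N` prime to `h` with `a h` even, in every interval `(y₁, y₂]` with `y₂ ≤ B N` and of length at least
`N / log ^ V N` (on which `q ± h > 0`) the number of the primes `q` for which `(q ± h) / a` is a prime is
`𝔖(a h) (y₂ - y₁) / (a log ^ 2 N)` up to a relative error of at most `ε`.

* Let `0 < θ < 1`. There is `κ₀ > 0` such that for all `A`, `B`, `V`, `D`, `U`, `ε > 0` and all large `N` there is a set
  `E` of real numbers of measure at most `N ^ (1 - θ - κ₀)` such that for all `y ∉ E` with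
  `N ^ (1 - θ) ≤ y ≤ 2 N ^ (1 - θ)`: for all `k ≤ N ^ θ`, with at most `N ^ θ / log ^ U N` exceptions, ALL integers
  `h > 0` with `|h - k y| ≤ log ^ A N` are good at the scale `N`.
* Let `v` be an arbitrary sequence of natural numbers with `v k ≥ k ^ c` for all large `k`, where `c > 0`. For almost
  every real number `α > 0` the following holds for all `A`, `B`, `V`, `D`, `U` and `j`: for all large `K` and for all
  `k ≤ K` with at most `K / log ^ U K` exceptions ALL integers `h > 0` with `|h - α v k| ≤ log ^ A (v k)` are good at the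
  scale `v k` with `ε = 1 / (j + 1)`.
* Let `v k ≥ exp (k ^ δ)` for all large `k`, where `δ > 0`. For almost every real number `α > 0` and all `A`, `B`, `V`,
  `D`, `j`: for ALL large `k` ALL integers `h > 0` with `|h - α v k| ≤ log ^ A (v k)` are good at the scale `v k` with
  `ε = 1 / (j + 1)`. -/
theorem result :
    (∀ θ : ℝ, 0 < θ → θ < 1 → ∃ κ₀ : ℝ, 0 < κ₀ ∧ ∀ (A B V D U : ℕ) (ε : ℝ), 0 < ε → ∃ N₀ : ℕ, ∀ N : ℕ, N₀ ≤ N →
      ∃ E : Set ℝ, MeasurableSet E ∧ volume E ≤ ENNReal.ofReal ((N : ℝ) ^ (1 - θ - κ₀)) ∧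
        ∀ y : ℝ, (N : ℝ) ^ (1 - θ) ≤ y → y ≤ 2 * (N : ℝ) ^ (1 - θ) → y ∉ E →
          (exceptions ⌊(N : ℝ) ^ θ⌋₊ (fun k => AllGood ε B V D N (Real.log N ^ A) (k * y)) : ℝ) ≤
            (N : ℝ) ^ θ / Real.log N ^ U) ∧
    (∀ (v : ℕ → ℕ) (c : ℝ), 0 < c → (∀ᶠ k : ℕ in atTop, (k : ℝ) ^ c ≤ v k) →
      ∀ᵐ α : ℝ, 0 < α → ∀ A B V D U j : ℕ, ∀ᶠ K : ℕ in atTop,
        (exceptions K (fun k => AllGood (1 / ((j : ℝ) + 1)) B V D (v k) (Real.log (v k) ^ A) (α * v k)) : ℝ) ≤
          K / Real.log K ^ U) ∧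
    (∀ (v : ℕ → ℕ) (δ : ℝ), 0 < δ → (∀ᶠ k : ℕ in atTop, Real.exp ((k : ℝ) ^ δ) ≤ v k) →
      ∀ᵐ α : ℝ, 0 < α → ∀ A B V D j : ℕ, ∀ᶠ k : ℕ in atTop,
        AllGood (1 / ((j : ℝ) + 1)) B V D (v k) (Real.log (v k) ^ A) (α * v k)) := by
  classical
  refine ⟨?_, ?_, ?_⟩
  · intro θ hθ hθ1
    obtain ⟨κ₀, hκ₀, h⟩ := Pool.Agent.Q319.DR.mult_few θ hθ hθ1
    refine ⟨κ₀, hκ₀, fun A B V D U ε hε => ?_⟩
    obtain ⟨N₀, h0⟩ := h _ (sparse ε hε B V D) A U
    refine ⟨N₀, fun N hN => ?_⟩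
    obtain ⟨E, hE1, hE2, hE3⟩ := h0 N hN
    refine ⟨E, hE1, hE2, fun y hy1 hy2 hyE => le_trans ?_ (hE3 y hy1 hy2 hyE)⟩
    unfold exceptions
    apply Nat.cast_le.2
    apply card_le_card
    intro k hk
    rw [mem_filter] at hk ⊢
    obtain ⟨hk1, hk2⟩ := hk
    unfold AllGood at hk2
    push Not at hk2
    obtain ⟨n, hn0, hn2, hn3⟩ := hk2
    exact ⟨hk1, n, hn2, hn0, hn3⟩
  · intro v c hc hv
    have h1 : ∀ᵐ α : ℝ, ∀ A B V D U j : ℕ, 0 < α → ∀ᶠ K : ℕ in atTop,
        (Pool.Agent.Q56.DR.cnt (fun N n => 0 < n ∧ ¬ Good (1 / ((j : ℝ) + 1)) B V D N n) A v α K : ℝ) ≤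
          K / Real.log K ^ U := by
      rw [ae_all_iff]
      intro A
      rw [ae_all_iff]
      intro B
      rw [ae_all_iff]
      intro V
      rw [ae_all_iff]
      intro D
      rw [ae_all_iff]
      intro U
      rw [ae_all_iff]
      intro j
      exact Pool.Agent.Q56.DR.seq_few _ (sparse (1 / ((j : ℝ) + 1)) (by positivity) B V D) A U v c hc hv
    filter_upwards [h1] with α hα hα0 A B V D U j
    filter_upwards [hα A B V D U j hα0] with K hK
    refine le_trans ?_ hK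
    unfold exceptions Pool.Agent.Q56.DR.cnt
    apply Nat.cast_le.2
    apply card_le_card
    intro k hk
    rw [mem_filter] at hk ⊢
    obtain ⟨hk1, hk2⟩ := hk
    unfold AllGood at hk2
    push Not at hk2
    obtain ⟨n, hn0, hn2, hn3⟩ := hk2
    exact ⟨hk1, n, hn2, hn0, hn3⟩
  · intro v δ hδ hv
    have h1 : ∀ᵐ α : ℝ, ∀ B V D : ℕ, 0 < α → ∀ A j : ℕ, ∀ᶠ k : ℕ in atTop,
        ∀ n : ℕ, |(n : ℝ) - α * v k| ≤ Real.log (v k) ^ A → ¬ (0 < n ∧ ¬ Good (1 / ((j : ℝ) + 1)) B V D (v k) n) := by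
      rw [ae_all_iff]
      intro B
      rw [ae_all_iff]
      intro V
      rw [ae_all_iff]
      intro D
      exact Pool.Agent.Q319.DR.lac_all_count (fun j N n => 0 < n ∧ ¬ Good (1 / ((j : ℝ) + 1)) B V D N n) (fun j =>
        sparse (1 / ((j : ℝ) + 1)) (by positivity) B V D) v δ hδ hv
    filter_upwards [h1] with α hα hα0 A B V D j
    filter_upwards [hα B V D hα0 A j] with k hk n hn0 hn2
    by_contra hcon
    exact hk n hn2 ⟨hn0, hcon⟩

end Pool.Agent.Results.MP_39a890_nt.ShiftsAtRealMultiples
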